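import Pool.Agent.W978.QN.Stm
import Pool.Agent.W82.QM.PAR

namespace Pool.Agent.W236.QN

open Pool.Agent.W978.QN

theorem cp_comp (q q' : Fin 3 → ℤ) (K x : ℤ) (h : ∀ i, x ∣ K * cp q q' i) (a b : Fin 3) :
    x ∣ K * (q a * q' b - q b * q' a) := by
  have h0 : x ∣ K * (q 1 * q' 2 - q 2 * q' 1) := h 0
  have h1 : x ∣ K * (q 2 * q' 0 - q 0 * q' 2) := h 1
  have h2 : x ∣ K * (q 0 * q' 1 - q 1 * q' 0) := h 2
  obtain ⟨c0, h0⟩ := h0
  obtain ⟨c1, h1⟩ := h1
  obtain ⟨c2, h2⟩ := h2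
  fin_cases a <;> fin_cases b <;> simp only [Fin.zero_eta, Fin.mk_one, Fin.reduceFinMk]
  · exact ⟨0, by ring⟩
  · exact ⟨c2, by linear_combination h2⟩
  · exact ⟨-c1, by linear_combination -h1⟩
  · exact ⟨-c2, by linear_combination -h2⟩
  · exact ⟨0, by ring⟩
  · exact ⟨c0, by linear_combination h0⟩
  · exact ⟨c1, by linear_combination h1⟩
  · exact ⟨-c0, by linear_combination -h0⟩
  · exact ⟨0, by ring⟩

theorem prim_eq (q q' : Fin 3 → ℤ) (hq : Prim q) (hq' : Prim q')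
    (h : ∀ a b, q a * q' b = q b * q' a) : q' = q ∨ q' = -q := by
  obtain ⟨u, hu⟩ := hq
  obtain ⟨u', hu'⟩ := hq'
  rw [Fin.sum_univ_three] at hu hu'
  have h1 : ∀ j, q' j = (u 0 * q' 0 + u 1 * q' 1 + u 2 * q' 2) * q j := by
    intro j
    linear_combination (-(q' j)) * hu - u 0 * h j 0 - u 1 * h j 1 - u 2 * h j 2
  have h2 : (u 0 * q' 0 + u 1 * q' 1 + u 2 * q' 2) * (u' 0 * q 0 + u' 1 * q 1 + u' 2 * q 2) = 1 := by
    linear_combination hu' - u' 0 * h1 0 - u' 1 * h1 1 - u' 2 * h1 2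
  rcases Int.eq_one_or_neg_one_of_mul_eq_one h2 with h3 | h3
  · left
    funext j
    rw [h1 j, h3, one_mul]
  · right
    funext j
    rw [h1 j, h3]
    simp

theorem tri : ∀ a b e : Fin 3, a ≠ b → a ≠ e → b ≠ e → ∀ i, i = a ∨ i = b ∨ i = e := by
  decide

theorem ex_third : ∀ a b : Fin 3, a ≠ b → ∃ e, a ≠ e ∧ b ≠ e := by
  decide

theorem sum_abe (f : Fin 3 → ℤ) (a b e : Fin 3) (hab : a ≠ b) (hae : a ≠ e) (hbe : b ≠ e) :
    ∑ i, f i = f a + f b + f e := by
  have h : (Finset.univ : Finset (Fin 3)) = {a, b, e} := by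
    ext i
    simp only [Finset.mem_univ, Finset.mem_insert, Finset.mem_singleton, true_iff]
    exact tri a b e hab hae hbe i
  rw [h, Finset.sum_insert, Finset.sum_insert, Finset.sum_singleton, add_assoc]
  · simpa using hbe
  · simp [hab, hae]

theorem wv_eq (M : Fin 3 → Fin 3 → ℤ) (q : Fin 3 → ℤ) (k a b e : Fin 3)
    (hab : a ≠ b) (hae : a ≠ e) (hbe : b ≠ e) :
    wv M q k = M k a * q a + M k b * q b + M k e * q e :=
  sum_abe (fun j => M k j * q j) a b e hab hae hbe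

theorem le_nm (q : Fin 3 → ℤ) (e : Fin 3) : |q e| ≤ nm q := by
  unfold nm
  fin_cases e
  · exact le_max_of_le_left (le_max_left _ _)
  · exact le_max_of_le_left (le_max_right _ _)
  · exact le_max_right _ _

theorem prim_ne (q : Fin 3 → ℤ) (hq : Prim q) : q ≠ 0 := by
  rintro rfl
  obtain ⟨u, hu⟩ := hq
  simp at hu

/-- all cross products vanish as soon as two of them with a nonvanishing coordinate do -/
theorem all_cross (q q' : Fin 3 → ℤ) (a b e : Fin 3) (hab : a ≠ b) (hae : a ≠ e) (hbe : b ≠ e)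
    (h1 : q a * q' b = q b * q' a) (h2 : q a * q' e = q e * q' a) (h3 : q b * q' e = q e * q' b) :
    ∀ i j, q i * q' j = q j * q' i := by
  intro i j
  rcases tri a b e hab hae hbe i with rfl | rfl | rfl <;>
    rcases tri _ _ _ hab hae hbe j with rfl | rfl | rfl <;>
    first | rfl | assumption | (symm; assumption)

theorem part1 (K : ℕ) (hK : 1 ≤ K) (M : Fin 3 → Fin 3 → ℤ) (Y g : ℕ) (hg : 1 ≤ g) (hgY : g ≤ Y)
    (k k' a b e : Fin 3) (hab : a ≠ b) (hae : a ≠ e) (hbe : b ≠ e) (hm : mnr M k k' a b ≠ 0)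
    (Q : Finset (Fin 3 → ℤ)) (h1 : ∀ q ∈ Q, Prim q ∧ ∀ k, |wv M q k| ≤ Y)
    (h2 : ∀ q ∈ Q, ∀ q' ∈ Q, ∀ i, (g : ℤ) ∣ K * cp q q' i) (h0 : ∀ q ∈ Q, q e = 0) :
    (Q.card : ℝ) ≤ 4 + 8 * (Y : ℝ) * Y / (|((mnr M k k' a b : ℤ) : ℝ)| * ((g : ℝ) / K)) := by
  classical
  have hext : ∀ q q' : Fin 3 → ℤ, q a = q' a → q b = q' b → q e = q' e → q = q' := by
    intro q q' e1 e2 e3
    funext i
    rcases tri a b e hab hae hbe i with rfl | rfl | rfl
    · exact e1
    · exact e2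
    · exact e3
  have hK0 : (0 : ℝ) < K := by exact_mod_cast hK
  have hg0 : (0 : ℝ) < g := by exact_mod_cast hg
  have hY0 : (0 : ℝ) < Y := by exact_mod_cast (le_trans hg hgY)
  have hinj : Set.InjOn (fun q : Fin 3 → ℤ => (![q a, q b] : Fin 2 → ℤ)) (Q : Set (Fin 3 → ℤ)) := by
    intro q hq q' hq' hh
    have e1 : q a = q' a := congrFun hh 0
    have e2 : q b = q' b := congrFun hh 1
    exact hext q q' e1 e2 (by rw [h0 q hq, h0 q' hq'])
  have hcard := Finset.card_image_of_injOn hinj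
  rw [← hcard]
  have hm0 : (0 : ℝ) < |((mnr M k k' a b : ℤ) : ℝ)| := by
    rw [abs_pos]
    exact_mod_cast hm
  refine Pool.Agent.W82.QM.par _ (![(M k a : ℝ), (M k b : ℝ)]) (![(M k' a : ℝ), (M k' b : ℝ)])
    Y Y ((g : ℝ) / K) _ hY0 hY0 (by positivity) hm0 ?_ ?_ ?_
  · simp [mnr]
  · intro v hv
    rw [Finset.mem_image] at hv
    obtain ⟨q, hq, rfl⟩ := hv
    have hqe := h0 q hq
    refine ⟨?_, ?_, ?_⟩
    · intro hz
      have e1 : q a = 0 := congrFun hz 0
      have e2 : q b = 0 := congrFun hz 1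
      exact prim_ne q (h1 q hq).1 (hext q 0 e1 e2 hqe)
    · have := (h1 q hq).2 k
      rw [wv_eq M q k a b e hab hae hbe, hqe, mul_zero, add_zero] at this
      have h3 : ((|M k a * q a + M k b * q b| : ℤ) : ℝ) ≤ ((Y : ℤ) : ℝ) := by exact_mod_cast this
      push_cast at h3
      simpa using h3
    · have := (h1 q hq).2 k'
      rw [wv_eq M q k' a b e hab hae hbe, hqe, mul_zero, add_zero] at this
      have h3 : ((|M k' a * q a + M k' b * q b| : ℤ) : ℝ) ≤ ((Y : ℤ) : ℝ) := by exact_mod_cast this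
      push_cast at h3
      simpa using h3
  · intro v hv w hw hne hne'
    rw [Finset.mem_image] at hv hw
    obtain ⟨q, hq, rfl⟩ := hv
    obtain ⟨q', hq', rfl⟩ := hw
    have hqe := h0 q hq
    have hqe' := h0 q' hq'
    have hD : q a * q' b - q b * q' a ≠ 0 := by
      intro hz
      have hall := all_cross q q' a b e hab hae hbe (by linarith) (by rw [hqe, hqe']; ring)
        (by rw [hqe, hqe']; ring)
      rcases prim_eq q q' (h1 q hq).1 (h1 q' hq').1 hall with h | h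
      · exact hne (by rw [h])
      · apply hne'
        rw [h]
        funext i
        fin_cases i <;> simp
    have hdvd := cp_comp q q' K g (h2 q hq q' hq') a b
    have hle : (g : ℤ) ≤ |(K : ℤ) * (q a * q' b - q b * q' a)| := by
      apply Int.le_of_dvd
      · rw [abs_pos]
        apply mul_ne_zero _ hD
        have : 0 < (K : ℤ) := by exact_mod_cast hK
        exact this.ne'
      · exact (dvd_abs _ _).mpr hdvd
    have h3 : (g : ℝ) ≤ |(K : ℝ) * ((q a : ℝ) * q' b - q b * q' a)| := by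
      have : ((g : ℤ) : ℝ) ≤ ((|(K : ℤ) * (q a * q' b - q b * q' a)| : ℤ) : ℝ) := by
        exact_mod_cast hle
      push_cast at this
      exact this
    rw [abs_mul, abs_of_pos hK0] at h3
    simp only [Matrix.cons_val_zero, Matrix.cons_val_one]
    rw [div_le_iff₀ hK0]
    linarith

theorem cnt (S : Finset (Fin 3 → ℤ)) (f h : (Fin 3 → ℤ) → ℝ) (D η : ℝ) (hD : 0 ≤ D) (hη : 0 < η)
    (h1 : ∀ q ∈ S, ∀ q' ∈ S, |f q - f q'| ≤ D ∧ |h q - h q'| ≤ D)
    (h2 : ∀ q ∈ S, ∀ q' ∈ S, |f q - f q'| < η → |h q - h q'| < η → q' = q ∨ q' = -q) :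
    (S.card : ℝ) ≤ 2 * (2 * (D / η) + 2) ^ 2 := by
  classical
  rcases S.eq_empty_or_nonempty with hS | ⟨q₀, hq₀⟩
  · rw [hS]
    simp
    positivity
  have hfl : ∀ x y : ℝ, |x - y| ≤ D → ⌊x / η⌋ ∈ Finset.Icc ⌊(y - D) / η⌋ ⌊(y + D) / η⌋ := by
    intro x y hxy
    rw [abs_le] at hxy
    rw [Finset.mem_Icc]
    constructor
    · apply Int.floor_le_floor
      apply div_le_div_of_nonneg_right _ hη.le
      linarith
    · apply Int.floor_le_floor
      apply div_le_div_of_nonneg_right _ hη.le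
      linarith
  have hci : ∀ y : ℝ, ((Finset.Icc ⌊(y - D) / η⌋ ⌊(y + D) / η⌋).card : ℝ) ≤ 2 * (D / η) + 2 := by
    intro y
    rw [Int.card_Icc]
    have h3 : ((⌊(y + D) / η⌋ + 1 - ⌊(y - D) / η⌋).toNat : ℝ) =
        ((⌊(y + D) / η⌋ + 1 - ⌊(y - D) / η⌋ : ℤ) : ℝ) := by
      have : ⌊(y - D) / η⌋ ≤ ⌊(y + D) / η⌋ := by
        apply Int.floor_le_floor
        apply div_le_div_of_nonneg_right _ hη.le
        linarith
      exact_mod_cast Int.toNat_of_nonneg (by omega)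
    rw [h3]
    push_cast
    have h4 := Int.floor_le ((y + D) / η)
    have h5 := Int.lt_floor_add_one ((y - D) / η)
    have h6 : (y + D) / η - (y - D) / η = 2 * (D / η) := by
      field_simp
      ring
    linarith
  have himg : S.image (fun q => (⌊f q / η⌋, ⌊h q / η⌋)) ⊆
      (Finset.Icc ⌊(f q₀ - D) / η⌋ ⌊(f q₀ + D) / η⌋) ×ˢ
        (Finset.Icc ⌊(h q₀ - D) / η⌋ ⌊(h q₀ + D) / η⌋) := by
    intro p hp
    rw [Finset.mem_image] at hp
    obtain ⟨q, hq, rfl⟩ := hp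
    rw [Finset.mem_product]
    exact ⟨hfl _ _ (h1 q hq q₀ hq₀).1, hfl _ _ (h1 q hq q₀ hq₀).2⟩
  have hlt : ∀ x y : ℝ, ⌊x / η⌋ = ⌊y / η⌋ → |x - y| < η := by
    intro x y hxy
    have h3 := Int.abs_sub_lt_one_of_floor_eq_floor hxy
    rw [← sub_div, abs_div, abs_of_pos hη, div_lt_one hη] at h3
    exact h3
  have hfib : S.card ≤ 2 * (S.image (fun q => (⌊f q / η⌋, ⌊h q / η⌋))).card := by
    apply Finset.card_le_mul_card_image
    intro p hp
    rw [Finset.mem_image] at hp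
    obtain ⟨q, hq, rfl⟩ := hp
    have hsub : {x ∈ S | (⌊f x / η⌋, ⌊h x / η⌋) = (⌊f q / η⌋, ⌊h q / η⌋)} ⊆ {q, -q} := by
      intro x hx
      rw [Finset.mem_filter] at hx
      obtain ⟨hx, hxe⟩ := hx
      rw [Prod.mk.injEq] at hxe
      have := h2 q hq x hx (hlt _ _ hxe.1.symm) (hlt _ _ hxe.2.symm)
      simpa using this
    exact (Finset.card_le_card hsub).trans Finset.card_le_two
  have h7 := Finset.card_le_card himg
  rw [Finset.card_product] at h7
  have h8 : (S.card : ℝ) ≤ 2 * ((Finset.Icc ⌊(f q₀ - D) / η⌋ ⌊(f q₀ + D) / η⌋).card *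
      (Finset.Icc ⌊(h q₀ - D) / η⌋ ⌊(h q₀ + D) / η⌋).card) := by
    exact_mod_cast hfib.trans (Nat.mul_le_mul_left 2 h7)
  refine h8.trans ?_
  rw [pow_two]
  apply mul_le_mul_of_nonneg_left _ (by norm_num)
  exact mul_le_mul (hci _) (hci _) (by positivity) (by positivity)

theorem cramer (m11 m12 m21 m22 x y B E m : ℝ) (hm : 0 < m) (hmd : m ≤ |m11 * m22 - m12 * m21|)
    (hB : 0 ≤ B) (h11 : |m11| ≤ B) (h12 : |m12| ≤ B) (h21 : |m21| ≤ B) (h22 : |m22| ≤ B)
    (h1 : |m11 * x + m12 * y| ≤ E) (h2 : |m21 * x + m22 * y| ≤ E) :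
    |x| ≤ 2 * B * E / m ∧ |y| ≤ 2 * B * E / m := by
  have hE : 0 ≤ E := (abs_nonneg _).trans h1
  constructor
  · rw [le_div_iff₀ hm]
    have e1 : (m11 * m22 - m12 * m21) * x =
        m22 * (m11 * x + m12 * y) - m12 * (m21 * x + m22 * y) := by ring
    calc |x| * m ≤ |x| * |m11 * m22 - m12 * m21| := mul_le_mul_of_nonneg_left hmd (abs_nonneg _)
      _ = |m22 * (m11 * x + m12 * y) - m12 * (m21 * x + m22 * y)| := by
          rw [← e1, abs_mul, mul_comm]
      _ ≤ |m22 * (m11 * x + m12 * y)| + |m12 * (m21 * x + m22 * y)| := abs_sub _ _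
      _ ≤ B * E + B * E := by
          rw [abs_mul, abs_mul]
          exact add_le_add (mul_le_mul h22 h1 (abs_nonneg _) hB)
            (mul_le_mul h12 h2 (abs_nonneg _) hB)
      _ = 2 * B * E := by ring
  · rw [le_div_iff₀ hm]
    have e1 : (m11 * m22 - m12 * m21) * y =
        m11 * (m21 * x + m22 * y) - m21 * (m11 * x + m12 * y) := by ring
    calc |y| * m ≤ |y| * |m11 * m22 - m12 * m21| := mul_le_mul_of_nonneg_left hmd (abs_nonneg _)
      _ = |m11 * (m21 * x + m22 * y) - m21 * (m11 * x + m12 * y)| := by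
          rw [← e1, abs_mul, mul_comm]
      _ ≤ |m11 * (m21 * x + m22 * y)| + |m21 * (m11 * x + m12 * y)| := abs_sub _ _
      _ ≤ B * E + B * E := by
          rw [abs_mul, abs_mul]
          exact add_le_add (mul_le_mul h11 h2 (abs_nonneg _) hB)
            (mul_le_mul h21 h1 (abs_nonneg _) hB)
      _ = 2 * B * E := by ring

/-- a quotient of integers with numerator zero or at least `γ` -/
theorem quot_ge (n : ℤ) (d γ T : ℝ) (hd : d ≠ 0) (hdT : |d| < T) (hγ : 0 < γ)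
    (hn : n = 0 ∨ γ ≤ |(n : ℝ)|) (h : |(n : ℝ) / d| < γ / T) : n = 0 := by
  rcases hn with hn | hn
  · exact hn
  · exfalso
    have hd0 : 0 < |d| := abs_pos.mpr hd
    have hT : 0 < T := hd0.trans hdT
    rw [abs_div, div_lt_div_iff₀ hd0 hT] at h
    have h3 : γ * |d| < |(n : ℝ)| * T := by
      calc γ * |d| < γ * T := mul_lt_mul_of_pos_left hdT hγ
        _ ≤ |(n : ℝ)| * T := mul_le_mul_of_nonneg_right hn hT.le
    linarith

theorem part2 (K : ℕ) (hK : 1 ≤ K) (M : Fin 3 → Fin 3 → ℤ) (Y g i : ℕ) (hg : 1 ≤ g)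
    (B m : ℝ) (hm : 0 < m) (hB : 0 ≤ B) (hMB : ∀ k j, |(M k j : ℝ)| ≤ B)
    (k k' a b e : Fin 3) (hab : a ≠ b) (hae : a ≠ e) (hbe : b ≠ e)
    (hmm : m ≤ |((mnr M k k' a b : ℤ) : ℝ)|)
    (Q : Finset (Fin 3 → ℤ)) (h1 : ∀ q ∈ Q, Prim q ∧ ∀ k, |wv M q k| ≤ Y)
    (h2 : ∀ q ∈ Q, ∀ q' ∈ Q, ∀ i, (g : ℤ) ∣ K * cp q q' i)
    (h3 : ∀ q ∈ Q, (2 : ℝ) ^ i ≤ |(q e : ℝ)| ∧ |(q e : ℝ)| < 2 ^ (i + 1)) :
    (Q.card : ℝ) ≤ 2 * (2 * ((2 * B * (2 * (Y / 2 ^ i)) / m) / ((g : ℝ) / K / 4 ^ (i + 1))) + 2) ^ 2 := by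
  have hK0 : (0 : ℝ) < K := by exact_mod_cast hK
  have hg0 : (0 : ℝ) < g := by exact_mod_cast hg
  have hne : ∀ q ∈ Q, (q e : ℝ) ≠ 0 := by
    intro q hq
    have := (h3 q hq).1
    have h4 : (0 : ℝ) < 2 ^ i := by positivity
    exact abs_pos.mp (h4.trans_le this)
  have hrow : ∀ q ∈ Q, ∀ k, |(M k a : ℝ) * ((q a : ℝ) / q e) + M k b * ((q b : ℝ) / q e) + M k e| ≤
      Y / 2 ^ i := by
    intro q hq k
    have h4 := (h1 q hq).2 k
    rw [wv_eq M q k a b e hab hae hbe] at h4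
    have h5 : |(M k a : ℝ) * q a + M k b * q b + M k e * q e| ≤ Y := by
      have : ((|M k a * q a + M k b * q b + M k e * q e| : ℤ) : ℝ) ≤ ((Y : ℤ) : ℝ) := by
        exact_mod_cast h4
      push_cast at this
      exact this
    have hq0 := hne q hq
    have e1 : (M k a : ℝ) * ((q a : ℝ) / q e) + M k b * ((q b : ℝ) / q e) + M k e =
        ((M k a : ℝ) * q a + M k b * q b + M k e * q e) / q e := by
      field_simp
    rw [e1, abs_div]
    have h6 := (h3 q hq).1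
    have h7 : (0 : ℝ) < 2 ^ i := by positivity
    exact div_le_div₀ (by positivity) h5 h7 h6
  apply cnt Q (fun q => (q a : ℝ) / q e) (fun q => (q b : ℝ) / q e)
  · positivity
  · positivity
  · intro q hq q' hq'
    have hr : ∀ k, |(M k a : ℝ) * ((q a : ℝ) / q e - (q' a : ℝ) / q' e) +
        M k b * ((q b : ℝ) / q e - (q' b : ℝ) / q' e)| ≤ 2 * (Y / 2 ^ i) := by
      intro k
      have h4 := hrow q hq k
      have h5 := hrow q' hq' k
      have e1 : (M k a : ℝ) * ((q a : ℝ) / q e - (q' a : ℝ) / q' e) +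
          M k b * ((q b : ℝ) / q e - (q' b : ℝ) / q' e) =
          ((M k a : ℝ) * ((q a : ℝ) / q e) + M k b * ((q b : ℝ) / q e) + M k e) -
          ((M k a : ℝ) * ((q' a : ℝ) / q' e) + M k b * ((q' b : ℝ) / q' e) + M k e) := by ring
      rw [e1]
      refine (abs_sub _ _).trans ?_
      linarith
    apply cramer (M k a) (M k b) (M k' a) (M k' b) _ _ B _ m hm _ hB (hMB _ _) (hMB _ _) (hMB _ _)
      (hMB _ _) (hr k) (hr k')
    have : ((mnr M k k' a b : ℤ) : ℝ) = (M k a : ℝ) * M k' b - M k b * M k' a := by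
      unfold mnr
      push_cast
      ring
    rw [← this]
    exact hmm
  · intro q hq q' hq' hf hh
    have hq0 := hne q hq
    have hq0' := hne q' hq'
    have hd : (q e : ℝ) * q' e ≠ 0 := mul_ne_zero hq0 hq0'
    have hdT : |(q e : ℝ) * q' e| < 4 ^ (i + 1) := by
      rw [abs_mul]
      have e4 : (4 : ℝ) ^ (i + 1) = 2 ^ (i + 1) * 2 ^ (i + 1) := by
        rw [← mul_pow]
        norm_num
      rw [e4]
      exact mul_lt_mul'' (h3 q hq).2 (h3 q' hq').2 (abs_nonneg _) (abs_nonneg _)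
    have hnum : ∀ s t : Fin 3, (q s * q' t - q t * q' s) = 0 ∨
        (g : ℝ) / K ≤ |((q s * q' t - q t * q' s : ℤ) : ℝ)| := by
      intro s t
      by_cases hz : q s * q' t - q t * q' s = 0
      · left
        exact hz
      · right
        have hdvd := cp_comp q q' K g (h2 q hq q' hq') s t
        have hle : (g : ℤ) ≤ |(K : ℤ) * (q s * q' t - q t * q' s)| := by
          apply Int.le_of_dvd
          · rw [abs_pos]
            apply mul_ne_zero _ hz
            have : 0 < (K : ℤ) := by exact_mod_cast hK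
            exact this.ne'
          · exact (dvd_abs _ _).mpr hdvd
        have h4 : (g : ℝ) ≤ |(K : ℝ) * ((q s * q' t - q t * q' s : ℤ) : ℝ)| := by
          have : ((g : ℤ) : ℝ) ≤ ((|(K : ℤ) * (q s * q' t - q t * q' s)| : ℤ) : ℝ) := by
            exact_mod_cast hle
          push_cast at this ⊢
          exact this
        rw [abs_mul, abs_of_pos hK0] at h4
        rw [div_le_iff₀ hK0]
        linarith
    have hqa : ∀ s : Fin 3, (q s : ℝ) / q e - (q' s : ℝ) / q' e =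
        ((q s * q' e - q e * q' s : ℤ) : ℝ) / ((q e : ℝ) * q' e) := by
      intro s
      push_cast
      field_simp
    have hγ : (0 : ℝ) < (g : ℝ) / K := by positivity
    have z1 : q a * q' e - q e * q' a = 0 := by
      apply quot_ge _ _ _ _ hd hdT hγ (hnum a e)
      rw [← hqa]
      exact hf
    have z2 : q b * q' e - q e * q' b = 0 := by
      apply quot_ge _ _ _ _ hd hdT hγ (hnum b e)
      rw [← hqa]
      exact hh
    have z3 : q a * q' b = q b * q' a := by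
      have hd' : q e * q' e ≠ 0 := by
        have h5 : (q e : ℝ) * q' e = ((q e * q' e : ℤ) : ℝ) := by push_cast; ring
        rw [h5] at hd
        exact_mod_cast hd
      have h6 : (q a * q' b - q b * q' a) * (q e * q' e) = 0 := by
        linear_combination (q' b * q e) * z1 - (q e * q' a) * z2
      rcases mul_eq_zero.mp h6 with h7 | h7
      · linarith
      · exact absurd h7 hd'
    exact prim_eq q q' (h1 q hq).1 (h1 q' hq').1
      (all_cross q q' a b e hab hae hbe z3 (by linarith) (by linarith))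

theorem qa : S_QA := by
  classical
  intro A K c hA hK hc
  have hA0 : (0 : ℝ) < A := by exact_mod_cast hA
  have hK0 : (0 : ℝ) < K := by exact_mod_cast hK
  obtain ⟨B0, hB0⟩ : ∃ B0 : ℝ, B0 = 16 * A * K / c := ⟨_, rfl⟩
  have hB0' : 0 ≤ B0 := by rw [hB0]; positivity
  refine ⟨4 + 8 * K * A / c + 8 * (B0 + 1) ^ 2, by positivity, ?_⟩
  intro M X₁ X₂ Y g hX₁ hX₂ hg hgY hYA hM hmin Q hQ hdv
  obtain ⟨k, k', a, b, hmin⟩ := hmin
  have hX1 : (0 : ℝ) < X₁ := by exact_mod_cast hX₁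
  have hX2 : (0 : ℝ) < X₂ := by exact_mod_cast hX₂
  have hg0 : (0 : ℝ) < g := by exact_mod_cast hg
  have hY0 : (0 : ℝ) < Y := by exact_mod_cast (le_trans hg hgY)
  have hYA' : (Y : ℝ) ≤ A * X₁ * X₂ := by exact_mod_cast hYA
  have hcX : 0 < c * (X₁ : ℝ) ^ 2 := by positivity
  have hm0 : 0 < |((mnr M k k' a b : ℤ) : ℝ)| := hcX.trans_le hmin
  have hm : mnr M k k' a b ≠ 0 := by
    intro h
    rw [h] at hm0
    simp at hm0
  have hab : a ≠ b := by
    rintro rfl
    apply hm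
    unfold mnr
    ring
  obtain ⟨e, hae, hbe⟩ := ex_third a b hab
  obtain ⟨Z, hZe⟩ : ∃ Z : ℝ, Z = Y * X₂ / (X₁ * g) := ⟨_, rfl⟩
  rw [← hZe]
  have hZ : 0 ≤ Z := by rw [hZe]; positivity
  have p1 : ((Q.filter (fun q => q e = 0)).card : ℝ) ≤ 4 + 8 * K * A / c * Z := by
    have h := part1 K hK M Y g hg hgY k k' a b e hab hae hbe hm (Q.filter (fun q => q e = 0))
      (fun q hq => ⟨(hQ q (Finset.mem_filter.mp hq).1).1, (hQ q (Finset.mem_filter.mp hq).1).2.2⟩)
      (fun q hq q' hq' => hdv q (Finset.mem_filter.mp hq).1 q' (Finset.mem_filter.mp hq').1)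
      (fun q hq => (Finset.mem_filter.mp hq).2)
    refine h.trans ?_
    have h5 : 8 * (Y : ℝ) * Y / (|((mnr M k k' a b : ℤ) : ℝ)| * ((g : ℝ) / K)) ≤
        8 * (Y : ℝ) * (A * X₁ * X₂) / (c * (X₁ : ℝ) ^ 2 * ((g : ℝ) / K)) := by
      apply div_le_div₀ (by positivity) _ (by positivity)
      · exact mul_le_mul_of_nonneg_right hmin (by positivity)
      · exact mul_le_mul_of_nonneg_left hYA' (by positivity)
    have h6 : 8 * (Y : ℝ) * (A * X₁ * X₂) / (c * (X₁ : ℝ) ^ 2 * ((g : ℝ) / K)) =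
        8 * K * A / c * Z := by
      rw [hZe]
      field_simp
    linarith
  have p2 : ∀ i ∈ Finset.range (Nat.log 2 X₂ + 1),
      (((Q.filter (fun q => ¬ q e = 0)).filter (fun q => Nat.log 2 (q e).natAbs = i)).card : ℝ) ≤
        8 * (B0 + 1) ^ 2 * (1 + Z) ^ 2 := by
    intro i hi
    rw [Finset.mem_range] at hi
    have h2i : (2 : ℝ) ^ i ≤ X₂ := by
      have := Nat.pow_le_of_le_log (b := 2) (x := i) (y := X₂) (by omega) (by omega)
      exact_mod_cast this
    have h := part2 K hK M Y g i hg (A * X₁) (c * (X₁ : ℝ) ^ 2) hcX (by positivity)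
      (fun k j => by
        have : ((|M k j| : ℤ) : ℝ) ≤ ((A * X₁ : ℤ) : ℝ) := by exact_mod_cast hM k j
        push_cast at this
        exact this) k k' a b e hab hae hbe hmin
      ((Q.filter (fun q => ¬ q e = 0)).filter (fun q => Nat.log 2 (q e).natAbs = i))
      (fun q hq => by
        rw [Finset.mem_filter, Finset.mem_filter] at hq
        exact ⟨(hQ q hq.1.1).1, (hQ q hq.1.1).2.2⟩)
      (fun q hq q' hq' => by
        rw [Finset.mem_filter, Finset.mem_filter] at hq hq'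
        exact hdv q hq.1.1 q' hq'.1.1)
      (fun q hq => by
        rw [Finset.mem_filter, Finset.mem_filter] at hq
        have e0 : (q e).natAbs ≠ 0 := by
          have := hq.1.2
          omega
        have e1 := Nat.pow_log_le_self 2 e0
        have e2 := Nat.lt_pow_succ_log_self (b := 2) (by norm_num) (q e).natAbs
        rw [hq.2] at e1 e2
        have e3 : |(q e : ℝ)| = (((q e).natAbs : ℕ) : ℝ) := by
          rw [Nat.cast_natAbs]
          push_cast
          rfl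
        rw [e3]
        constructor
        · exact_mod_cast e1
        · exact_mod_cast e2)
    refine h.trans ?_
    have h7 : (2 * ((A : ℝ) * X₁) * (2 * (Y / 2 ^ i)) / (c * (X₁ : ℝ) ^ 2)) /
        ((g : ℝ) / K / 4 ^ (i + 1)) = 16 * A * K / c * (Y * 2 ^ i / (X₁ * g)) := by
      have e4 : (4 : ℝ) ^ (i + 1) = 4 * (2 ^ i * 2 ^ i) := by
        rw [pow_succ, ← mul_pow]
        norm_num
        ring
      rw [e4]
      have : (2 : ℝ) ^ i ≠ 0 := by positivity
      field_simp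
      ring
    have h8 : (Y : ℝ) * 2 ^ i / (X₁ * g) ≤ Z := by
      rw [hZe]
      apply div_le_div_of_nonneg_right _ (by positivity)
      exact mul_le_mul_of_nonneg_left h2i hY0.le
    have h9 : 16 * (A : ℝ) * K / c * (Y * 2 ^ i / (X₁ * g)) ≤ B0 * Z := by
      rw [← hB0]
      exact mul_le_mul_of_nonneg_left h8 hB0'
    rw [h7]
    have h10 : 0 ≤ 16 * (A : ℝ) * K / c * (Y * 2 ^ i / (X₁ * g)) := by positivity
    generalize 16 * (A : ℝ) * K / c * (Y * 2 ^ i / (X₁ * g)) = W at h9 h10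
    have h11 : 2 * W + 2 ≤ 2 * ((B0 + 1) * (1 + Z)) := by nlinarith
    have h12 : (2 * W + 2) ^ 2 ≤ (2 * ((B0 + 1) * (1 + Z))) ^ 2 :=
      pow_le_pow_left₀ (by positivity) h11 2
    have h13 : (2 * ((B0 + 1) * (1 + Z))) ^ 2 = 4 * ((B0 + 1) ^ 2 * (1 + Z) ^ 2) := by ring
    linarith
  have hsplit : Q.card = (Q.filter (fun q => q e = 0)).card +
      (Q.filter (fun q => ¬ q e = 0)).card :=
    (Finset.card_filter_add_card_filter_not (s := Q) (fun q => q e = 0)).symm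
  have hfib : (Q.filter (fun q => ¬ q e = 0)).card = ∑ i ∈ Finset.range (Nat.log 2 X₂ + 1),
      ((Q.filter (fun q => ¬ q e = 0)).filter (fun q => Nat.log 2 (q e).natAbs = i)).card := by
    apply Finset.card_eq_sum_card_fiberwise
    intro q hq
    have hq' : q ∈ Q := by
      have := Finset.mem_coe.mp hq
      exact (Finset.mem_filter.mp this).1
    have h5 : |q e| ≤ X₂ := (le_nm q e).trans (hQ q hq').2.1
    rw [Finset.mem_coe, Finset.mem_range]
    have h6 : (q e).natAbs ≤ X₂ := by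
      have : ((q e).natAbs : ℤ) ≤ X₂ := by
        rw [Int.natCast_natAbs]
        exact h5
      exact_mod_cast this
    have := Nat.log_mono_right (b := 2) h6
    exact Nat.lt_succ_of_le this
  have h20 : (Q.card : ℝ) ≤ (4 + 8 * K * A / c * Z) +
      ((Nat.log 2 X₂ : ℝ) + 1) * (8 * (B0 + 1) ^ 2 * (1 + Z) ^ 2) := by
    have h21 : ((Q.filter (fun q => ¬ q e = 0)).card : ℝ) ≤
        ((Nat.log 2 X₂ : ℝ) + 1) * (8 * (B0 + 1) ^ 2 * (1 + Z) ^ 2) := by
      rw [hfib]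
      push_cast
      refine (Finset.sum_le_sum p2).trans ?_
      rw [Finset.sum_const, Finset.card_range, nsmul_eq_mul]
      push_cast
      exact le_refl _
    rw [hsplit]
    push_cast
    exact add_le_add p1 h21
  refine h20.trans ?_
  have hL : (1 : ℝ) ≤ (Nat.log 2 X₂ : ℝ) + 1 := by
    have : (0 : ℝ) ≤ (Nat.log 2 X₂ : ℝ) := Nat.cast_nonneg _
    linarith
  have hZ1 : 1 ≤ (1 + Z) ^ 2 := by nlinarith
  have hZ2 : Z ≤ (1 + Z) ^ 2 := by nlinarith
  have hq : 0 ≤ 8 * (K : ℝ) * A / c := by positivity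
  generalize (Nat.log 2 X₂ : ℝ) + 1 = L at hL
  generalize 8 * (K : ℝ) * A / c = R at hq
  have h30 : 4 + R * Z ≤ (4 + R) * (1 + Z) ^ 2 := by nlinarith
  have h31 : (4 + R) * (1 + Z) ^ 2 ≤ L * ((4 + R) * (1 + Z) ^ 2) := by
    have : 0 ≤ (4 + R) * (1 + Z) ^ 2 := by positivity
    nlinarith
  nlinarith

end Pool.Agent.W236.QN
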